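import Pool.Agent.N874.PP.Lat

/-!
# PP-RED: reduction of a lattice over `k[X]` with weights
-/

set_option autoImplicit false

open Polynomial Matrix

namespace Pool.Agent.N277.PP

variable {k : Type} [Field k]

/-- the degree of a row -/
noncomputable def rd (v : Fin 3 → k[X]) : ℕ := Finset.univ.sup fun j => (v j).natDegree

lemma le_rd (v : Fin 3 → k[X]) (j : Fin 3) : (v j).natDegree ≤ rd v :=
  Finset.le_sup (f := fun j => (v j).natDegree) (Finset.mem_univ j)

lemma coeff_three {p q r : k[X]} {a b c : ℕ} (hp : p.natDegree ≤ a) (hq : q.natDegree ≤ b)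
    (hr : r.natDegree ≤ c) : (p * q * r).coeff (a + b + c) = p.coeff a * q.coeff b * r.coeff c := by
  have h1 : (p * q).natDegree ≤ a + b := natDegree_mul_le_of_le hp hq
  rw [coeff_mul_add_eq_of_natDegree_le h1 hr, coeff_mul_add_eq_of_natDegree_le hp hq]

lemma natDegree_three {p q r : k[X]} {a b c : ℕ} (hp : p.natDegree ≤ a) (hq : q.natDegree ≤ b)
    (hr : r.natDegree ≤ c) : (p * q * r).natDegree ≤ a + b + c :=
  natDegree_mul_le_of_le (natDegree_mul_le_of_le hp hq) hr

/-- the matrix of leading coefficients -/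
noncomputable def lc (F : Matrix (Fin 3) (Fin 3) k[X]) : Matrix (Fin 3) (Fin 3) k :=
  fun i j => (F i j).coeff (rd (F i))

lemma coeff_det (F : Matrix (Fin 3) (Fin 3) k[X]) :
    F.det.coeff (∑ i, rd (F i)) = (lc F).det := by
  rw [Fin.sum_univ_three, det_fin_three, det_fin_three]
  simp only [coeff_sub, coeff_add]
  simp only [coeff_three (le_rd (F 0) _) (le_rd (F 1) _) (le_rd (F 2) _)]
  rfl

lemma natDegree_det_le (F : Matrix (Fin 3) (Fin 3) k[X]) :
    F.det.natDegree ≤ ∑ i, rd (F i) := by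
  rw [natDegree_le_iff_coeff_eq_zero]
  intro N hN
  rw [Fin.sum_univ_three] at hN
  have h : ∀ a b c : Fin 3, (F 0 a * F 1 b * F 2 c).coeff N = 0 := fun a b c =>
    coeff_eq_zero_of_natDegree_lt
      (lt_of_le_of_lt (natDegree_three (le_rd (F 0) a) (le_rd (F 1) b) (le_rd (F 2) c)) hN)
  rw [det_fin_three]
  simp only [coeff_sub, coeff_add, h]
  ring

lemma det_upd (i : Fin 3) (r : Fin 3 → k[X]) :
    ((1 : Matrix (Fin 3) (Fin 3) k[X]).updateRow i r).det = r i := by
  have h := cramer_transpose_apply (1 : Matrix (Fin 3) (Fin 3) k[X]) r i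
  rw [← h, transpose_one, cramer_one]
  rfl

/-- one step of the reduction -/
lemma step (F : Matrix (Fin 3) (Fin 3) k[X]) (hF : F.det ≠ 0)
    (h : F.det.natDegree < ∑ i, rd (F i)) : ∃ V : Matrix (Fin 3) (Fin 3) k[X], IsUnit V.det ∧
      ∑ i, rd ((V * F) i) < ∑ i, rd (F i) := by
  classical
  have h0 : (lc F).det = 0 := by
    rw [← coeff_det]
    exact coeff_eq_zero_of_natDegree_lt h
  obtain ⟨c, hc, hcl⟩ := exists_vecMul_eq_zero_iff.2 h0
  obtain ⟨i₁, hi₁⟩ := Function.ne_iff.1 hc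
  obtain ⟨i₀, hi₀, hmax⟩ := Finset.exists_max_image (Finset.univ.filter fun i => c i ≠ 0)
    (fun i => rd (F i)) ⟨i₁, by simpa using hi₁⟩
  have hi₀ : c i₀ ≠ 0 := (Finset.mem_filter.1 hi₀).2
  have hmax : ∀ i, c i ≠ 0 → rd (F i) ≤ rd (F i₀) := fun i hi =>
    hmax i (Finset.mem_filter.2 ⟨Finset.mem_univ _, hi⟩)
  set r : Fin 3 → k[X] := fun i => C (c i) * X ^ (rd (F i₀) - rd (F i)) with hr
  set V : Matrix (Fin 3) (Fin 3) k[X] := (1 : Matrix (Fin 3) (Fin 3) k[X]).updateRow i₀ r with hV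
  have hVdet : V.det = C (c i₀) := by
    rw [hV, det_upd, hr]
    simp
  have hVu : IsUnit V.det := by
    rw [hVdet, isUnit_C]
    exact isUnit_iff_ne_zero.2 hi₀
  have hdet : (V * F).det ≠ 0 := by
    rw [det_mul]
    exact mul_ne_zero hVu.ne_zero hF
  have hrow : ∀ i, i ≠ i₀ → (V * F) i = F i := by
    intro i hi
    rw [mul_apply_eq_vecMul, hV, updateRow_ne hi]
    ext1 j
    simp [vecMul, dotProduct, one_apply]
  have hrow0 : ∀ j, (V * F) i₀ j = ∑ i, C (c i) * X ^ (rd (F i₀) - rd (F i)) * F i j := by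
    intro j
    rw [mul_apply_eq_vecMul, hV, updateRow_self]
    rfl
  have hterm : ∀ i j, (C (c i) * X ^ (rd (F i₀) - rd (F i)) * F i j).natDegree ≤ rd (F i₀) := by
    intro i j
    by_cases hci : c i = 0
    · simp [hci]
    · refine (natDegree_mul_le_of_le (natDegree_C_mul_X_pow_le _ _) (le_rd (F i) j)).trans ?_
      have := hmax i hci
      omega
  have hcoef : ∀ i j, (C (c i) * X ^ (rd (F i₀) - rd (F i)) * F i j).coeff (rd (F i₀)) =
      c i * lc F i j := by
    intro i j
    by_cases hci : c i = 0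
    · simp [hci]
    · have h1 := hmax i hci
      have h2 : rd (F i₀) = rd (F i) + (rd (F i₀) - rd (F i)) := by omega
      rw [mul_assoc, coeff_C_mul]
      congr 1
      rw [mul_comm]
      conv_lhs => rw [h2]
      have h3 : rd (F i) + (rd (F i₀) - rd (F i)) - rd (F i) = rd (F i₀) - rd (F i) := by omega
      rw [h3, coeff_mul_X_pow]
      rfl
  have hdeg : ∀ j, ((V * F) i₀ j).natDegree ≤ rd (F i₀) := by
    intro j
    rw [hrow0]
    exact natDegree_sum_le_of_forall_le _ _ fun i _ => hterm i j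
  have hz : ∀ j, ((V * F) i₀ j).coeff (rd (F i₀)) = 0 := by
    intro j
    rw [hrow0, finsetSum_coeff]
    rw [Finset.sum_congr rfl fun i _ => hcoef i j]
    have := congrFun hcl j
    simpa [vecMul, dotProduct] using this
  have hlt : ∀ j, (V * F) i₀ j ≠ 0 → ((V * F) i₀ j).natDegree < rd (F i₀) := by
    intro j hj
    refine lt_of_le_of_ne (hdeg j) fun he => ?_
    have h1 := hz j
    rw [← he, coeff_natDegree, leadingCoeff_eq_zero] at h1
    exact hj h1
  have hpos : 0 < rd (F i₀) := by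
    by_contra hp
    apply hdet
    apply det_eq_zero_of_row_eq_zero i₀
    intro j
    by_contra hj
    have := hlt j hj
    omega
  have hnew : rd ((V * F) i₀) < rd (F i₀) := by
    unfold rd
    rw [Finset.sup_lt_iff (by exact hpos)]
    intro j _
    by_cases hj : (V * F) i₀ j = 0
    · rw [hj, natDegree_zero]
      exact hpos
    · exact hlt j hj
  refine ⟨V, hVu, Finset.sum_lt_sum (fun i _ => ?_) ⟨i₀, Finset.mem_univ _, hnew⟩⟩
  by_cases hi : i = i₀
  · rw [hi]
    exact hnew.le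
  · rw [hrow i hi]

/-- reduction, without weights -/
lemma red (M : Matrix (Fin 3) (Fin 3) k[X]) (hM : M.det ≠ 0) :
    ∃ U : Matrix (Fin 3) (Fin 3) k[X], IsUnit U.det ∧ Monotone (fun i => rd ((U * M) i)) ∧
      ∑ i, rd ((U * M) i) = M.det.natDegree := by
  classical
  have hex : ∃ n : ℕ, ∃ U : Matrix (Fin 3) (Fin 3) k[X], IsUnit U.det ∧
      ∑ i, rd ((U * M) i) = n := ⟨_, 1, by simp, rfl⟩
  obtain ⟨U, hU, hn⟩ := Nat.find_spec hex
  have hmin := fun m (hm : m < Nat.find hex) => Nat.find_min hex hm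
  have hdU : (U * M).det.natDegree = M.det.natDegree := by
    rw [det_mul, natDegree_mul hU.ne_zero hM, natDegree_eq_zero_of_isUnit hU, zero_add]
  have hUM : (U * M).det ≠ 0 := by
    rw [det_mul]
    exact mul_ne_zero hU.ne_zero hM
  have hsum : ∑ i, rd ((U * M) i) = M.det.natDegree := by
    apply le_antisymm
    · by_contra hlt
      rw [not_le, ← hdU] at hlt
      obtain ⟨V, hV, hlt2⟩ := step (U * M) hUM hlt
      rw [hn] at hlt2
      refine hmin _ hlt2 ⟨V * U, ?_, ?_⟩
      · rw [det_mul]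
        exact hV.mul hU
      · rw [Matrix.mul_assoc]
    · rw [← hdU]
      exact natDegree_det_le _
  set σ : Equiv.Perm (Fin 3) := Tuple.sort (fun i => rd ((U * M) i)) with hσ
  have hrows : ∀ i, (U.submatrix σ id * M) i = (U * M) (σ i) := fun i => rfl
  refine ⟨U.submatrix σ id, ?_, ?_, ?_⟩
  · rw [det_permute]
    refine IsUnit.mul ?_ hU
    rcases Int.units_eq_one_or (Equiv.Perm.sign σ) with h | h <;> simp [h]
  · exact Tuple.monotone_sort (fun i => rd ((U * M) i))
  · rw [← hsum]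
    exact Equiv.sum_comp σ (fun i => rd ((U * M) i))

/-- PP-RED -/
theorem red_wt : Pool.Agent.N874.PP.S_RED := by
  classical
  intro k _ d E hE
  set D : Matrix (Fin 3) (Fin 3) k[X] := diagonal fun j => (X : k[X]) ^ d j with hD
  have hDdet : D.det = X ^ (∑ j, d j) := by
    rw [hD, det_diagonal, Finset.prod_pow_eq_pow_sum]
  have hM : (E * D).det ≠ 0 := by
    rw [det_mul, hDdet]
    exact mul_ne_zero hE (pow_ne_zero _ X_ne_zero)
  have hwt : ∀ F : Matrix (Fin 3) (Fin 3) k[X], ∀ i, Pool.Agent.N874.PP.wt d (F i) = rd ((F * D) i) := by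
    intro F i
    unfold Pool.Agent.N874.PP.wt rd
    congr 1
    funext j
    rw [hD, mul_diagonal]
    split_ifs with h
    · rw [h, zero_mul, natDegree_zero]
    · rw [natDegree_mul h (pow_ne_zero _ X_ne_zero), natDegree_X_pow]
  obtain ⟨U, hU, hmono, hsum⟩ := red (E * D) hM
  refine ⟨U, hU, ?_, ?_⟩
  · have : (fun i => Pool.Agent.N874.PP.wt d ((U * E) i)) = fun i => rd ((U * (E * D)) i) := by
      funext i
      rw [hwt, Matrix.mul_assoc]
    rw [this]
    exact hmono
  · have : ∀ i, Pool.Agent.N874.PP.wt d ((U * E) i) = rd ((U * (E * D)) i) := by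
      intro i
      rw [hwt, Matrix.mul_assoc]
    rw [Finset.sum_congr rfl fun i _ => this i, hsum, det_mul, hDdet,
      natDegree_mul hE (pow_ne_zero _ X_ne_zero), natDegree_X_pow]

end Pool.Agent.N277.PP
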